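import Pool.Agent.H410Z.JonesDefs

set_option autoImplicit false

open Set Topology Filter

namespace Pool.Agent.H410Z.Jones

variable {S : Type*} [TopologicalSpace S]

theorem mem_T {A : Set S} {p : S} :
    p ∈ T A ↔ ∀ W : Set S, IsCompact W → IsConnected W → W ∈ 𝓝 p → (W ∩ A).Nonempty := by
  simp only [T, mem_setOf_eq, mem_interior_iff_mem_nhds]

theorem notMem_T {A : Set S} {p : S} :
    p ∉ T A ↔ ∃ W : Set S, IsCompact W ∧ IsConnected W ∧ W ∈ 𝓝 p ∧ Disjoint W A := by
  rw [mem_T]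
  push Not
  simp only [disjoint_iff_inter_eq_empty]

theorem T_mono {A B : Set S} (h : A ⊆ B) : T A ⊆ T B := by
  intro p hp
  rw [mem_T] at hp ⊢
  intro W h1 h2 h3
  exact (hp W h1 h2 h3).mono (inter_subset_inter_right _ h)

theorem subset_T (A : Set S) : A ⊆ T A := by
  intro p hp
  rw [mem_T]
  intro W _ _ h3
  exact ⟨p, mem_of_mem_nhds h3, hp⟩

theorem self_mem_T (p : S) : p ∈ T ({p} : Set S) := subset_T _ rfl

theorem isClosed_T (A : Set S) : IsClosed (T A) := by
  rw [← isOpen_compl_iff, isOpen_iff_mem_nhds]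
  intro p hp
  obtain ⟨W, h1, h2, h3, h4⟩ := notMem_T.1 hp
  filter_upwards [interior_mem_nhds.2 h3] with q hq
  exact notMem_T.2 ⟨W, h1, h2, mem_interior_iff_mem_nhds.1 hq, h4⟩

theorem T_empty [CompactSpace S] [ConnectedSpace S] : T (∅ : Set S) = ∅ := by
  ext p
  simp only [mem_empty_iff_false, iff_false]
  exact notMem_T.2 ⟨univ, isCompact_univ, isConnected_univ, univ_mem, by simp⟩

/-- The three consequences of Vietoris continuity of `T` which the argument uses. -/
structure Cts (S : Type*) [TopologicalSpace S] : Prop where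
  fin : ∀ D : Set S, D.Nonempty → ∀ U : Set S, IsOpen U → (T (closure D) ∩ U).Nonempty →
    ∃ F : Set S, F.Finite ∧ F ⊆ D ∧ (T F ∩ U).Nonempty
  lsc : ∀ A : Set S, IsClosed A → ∀ U : Set S, IsOpen U →
    IsOpen {p : S | (T (insert p A) ∩ U).Nonempty}
  usc : ∀ A : Set S, IsClosed A → ∀ U : Set S, IsOpen U → IsOpen {p : S | T (insert p A) ⊆ U}

theorem isClosed_connectedComponentIn' {Z : Set S} (hZ : IsClosed Z) (x : S) :
    IsClosed (connectedComponentIn Z x) := by
  by_cases hx : x ∈ Z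
  · apply isClosed_of_closure_subset
    apply IsPreconnected.subset_connectedComponentIn
    · exact isPreconnected_connectedComponentIn.closure
    · exact subset_closure (mem_connectedComponentIn hx)
    · exact closure_minimal (connectedComponentIn_subset _ _) hZ
  · rw [connectedComponentIn_eq_empty hx]; exact isClosed_empty

/-- quasi-components are components in a closed subset of a compact Hausdorff space -/
theorem exists_sep [CompactSpace S] [T2Space S] {Z : Set S} (hZ : IsClosed Z) {x z : S}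
    (hx : x ∈ Z) (hz : z ∈ Z) (h : z ∉ connectedComponentIn Z x) :
    ∃ H K : Set S, IsClosed H ∧ IsClosed K ∧ Disjoint H K ∧ H ∪ K = Z ∧ x ∈ H ∧ z ∈ K := by
  haveI : CompactSpace Z := isCompact_iff_compactSpace.1 hZ.isCompact
  have h1 : (⟨z, hz⟩ : Z) ∉ connectedComponent (⟨x, hx⟩ : Z) := by
    intro h2
    apply h
    rw [connectedComponentIn_eq_image hx]
    exact ⟨_, h2, rfl⟩
  rw [connectedComponent_eq_iInter_isClopen] at h1
  simp only [mem_iInter, not_forall] at h1
  obtain ⟨⟨s, hs, hxs⟩, hzs⟩ := h1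
  have hc : IsClosedEmbedding ((↑) : Z → S) := hZ.isClosedEmbedding_subtypeVal
  refine ⟨(↑) '' s, (↑) '' sᶜ, hc.isClosedMap _ hs.isClosed, hc.isClosedMap _ hs.compl.isClosed,
    ?_, ?_, ⟨_, hxs, rfl⟩, ⟨_, hzs, rfl⟩⟩
  · exact (disjoint_image_iff Subtype.val_injective).2 disjoint_compl_right
  · rw [← image_union, union_compl_self, image_univ, Subtype.range_coe]

theorem sub_of_closed {M H K : Set S} (hM : IsPreconnected M) (hH : IsClosed H) (hK : IsClosed K)
    (hd : Disjoint H K) (hs : M ⊆ H ∪ K) {x : S} (hxM : x ∈ M) (hxH : x ∈ H) : M ⊆ H := by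
  rcases isPreconnected_iff_subset_of_disjoint_closed.1 hM H K hH hK hs
    (by rw [hd.inter_eq, inter_empty]) with h | h
  · exact h
  · exact absurd (h hxM) (disjoint_left.1 hd hxH)

variable [CompactSpace S] [T2Space S] [ConnectedSpace S]

theorem idem0 (hc : Cts S) {W : Set S} (h1 : IsCompact W) (h2 : IsConnected W) :
    T (interior W)ᶜ ⊆ (interior W)ᶜ := by
  intro x hx hxW
  rw [← closure_compl] at hx
  rcases eq_empty_or_nonempty Wᶜ with h | h
  · rw [h, closure_empty, T_empty] at hx; exact hx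
  · obtain ⟨F, -, hF, y, hy, hyW⟩ := hc.fin _ h _ isOpen_interior ⟨x, hx, hxW⟩
    obtain ⟨z, hz, hzF⟩ := mem_T.1 hy W h1 h2 (mem_interior_iff_mem_nhds.1 hyW)
    exact hF hzF hz

theorem idem (hc : Cts S) (A : Set S) : T (T A) ⊆ T A := by
  intro x hx
  by_contra hxA
  obtain ⟨W, h1, h2, h3, h4⟩ := notMem_T.1 hxA
  have : T A ⊆ (interior W)ᶜ := fun y hy hyW =>
    notMem_T.2 ⟨W, h1, h2, mem_interior_iff_mem_nhds.1 hyW, h4⟩ hy
  exact idem0 hc h1 h2 (T_mono this hx) (mem_interior_iff_mem_nhds.2 h3)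

theorem T_sub_of_sub (hc : Cts S) {A B : Set S} (h : A ⊆ T B) : T A ⊆ T B :=
  (T_mono h).trans (idem hc B)

/-- separation lemma -/
theorem sep (hc : Cts S) {A B O₁ O₂ : Set S} (h₁ : IsOpen O₁) (h₂ : IsOpen O₂)
    (hd : Disjoint O₁ O₂) (hT : T (A ∪ B) ⊆ O₁ ∪ O₂) (hA : A ⊆ O₁) :
    T (A ∪ B) ∩ O₂ ⊆ T B := by
  rintro x ⟨hx, hxO⟩
  by_contra hxB
  obtain ⟨N, hN1, hN2, hN3, hN4⟩ := notMem_T.1 hxB
  have hcl : Disjoint O₁ (closure O₂) := hd.closure_right h₁
  have hfr : ∀ y ∈ frontier O₂, ∃ M : Set S, IsCompact M ∧ IsConnected M ∧ M ∈ 𝓝 y ∧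
      Disjoint M (T (A ∪ B)) := by
    intro y hy
    apply notMem_T.1
    intro hy2
    rcases hT (idem hc _ hy2) with h | h
    · exact disjoint_left.1 hcl h (frontier_subset_closure hy)
    · rw [h₂.frontier_eq] at hy; exact hy.2 h
  choose! M hM1 hM2 hM3 hM4 using hfr
  obtain ⟨t, ht1, ht2⟩ := isClosed_frontier.isCompact.elim_nhds_subcover M hM3
  set Z : Set S := (N ∩ closure O₂) ∪ ⋃ y ∈ t, M y with hZ
  have hZc : IsClosed Z := (hN1.isClosed.inter isClosed_closure).union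
    (isClosed_biUnion_finset fun y hy => (hM1 y (ht1 y hy)).isClosed)
  have hxZ : x ∈ Z := Or.inl ⟨mem_of_mem_nhds hN3, subset_closure hxO⟩
  have hMZ : ∀ y ∈ t, M y ⊆ Z := fun y hy =>
    (subset_biUnion_of_mem (u := M) (by exact_mod_cast hy)).trans subset_union_right
  have hZd : Disjoint Z (A ∪ B) := by
    rw [disjoint_left]
    rintro z (⟨hz1, hz2⟩ | hz) hzAB
    · rcases hzAB with h | h
      · exact disjoint_left.1 hcl (hA h) hz2
      · exact disjoint_left.1 hN4 hz1 h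
    · simp only [mem_iUnion] at hz
      obtain ⟨y, hy, hzy⟩ := hz
      exact disjoint_left.1 (hM4 y (ht1 y hy)) hzy (subset_T _ hzAB)
  -- every nonempty relatively clopen part of Z meets some M y
  have key : ∀ Q : Set S, IsClosed Q → IsClosed (Z \ Q) → Q ⊆ Z → Q.Nonempty →
      ∃ y ∈ t, (M y ∩ Q).Nonempty := by
    intro Q hQ1 hQ2 hQ3 ⟨q, hq⟩
    by_contra hcon
    push Not at hcon
    have hQN : Q ⊆ N ∩ O₂ := by
      intro z hz
      have hz' : z ∉ ⋃ y ∈ t, M y := by
        simp only [mem_iUnion, not_exists]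
        intro y hy hzy
        have : z ∈ M y ∩ Q := ⟨hzy, hz⟩
        rw [hcon y hy] at this; exact this
      rcases hQ3 hz with ⟨h1, h2⟩ | h
      · refine ⟨h1, ?_⟩
        by_contra h3
        apply hz'
        apply ht2
        rw [h₂.frontier_eq]; exact ⟨h2, h3⟩
      · exact absurd h hz'
    have hNQ : N ⊆ Q := by
      apply sub_of_closed hN2.isPreconnected hQ1 (hQ2.union h₂.isClosed_compl) ?_ ?_
        (hQN hq).1 hq
      · rw [disjoint_left]
        rintro z hz (h | h)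
        · exact h.2 hz
        · exact h (hQN hz).2
      · intro z hz
        by_cases h : z ∈ Q
        · exact Or.inl h
        · by_cases h' : z ∈ O₂
          · exact Or.inr (Or.inl ⟨Or.inl ⟨hz, subset_closure h'⟩, h⟩)
          · exact Or.inr (Or.inr h')
    exact notMem_T.2 ⟨N, hN1, hN2, hN3, hZd.mono_left (hNQ.trans hQ3)⟩ hx
  set C := connectedComponentIn Z x with hC
  have hsep : ∀ y ∈ t, ∃ H : Set S, IsClosed H ∧ IsClosed (Z \ H) ∧ x ∈ H ∧
      (M y ⊆ C ∨ Disjoint (M y) H) := by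
    intro y hy
    by_cases hyC : M y ⊆ C
    · exact ⟨univ, isClosed_univ, by simp, mem_univ _, Or.inl hyC⟩
    · obtain ⟨z, hz1, hz2⟩ := not_subset.1 hyC
      obtain ⟨H, K, hH, hK, hHK, hU, hxH, hzK⟩ := exists_sep hZc hxZ (hMZ y hy hz1) hz2
      refine ⟨H, hH, ?_, hxH, Or.inr ?_⟩
      · rw [← hU, union_diff_cancel_left (by rw [hHK.inter_eq])]; exact hK
      · have : M y ⊆ K := sub_of_closed (hM2 y (ht1 y hy)).isPreconnected hK hH hHK.symm
          (by rw [union_comm, hU]; exact hMZ y hy) hz1 hzK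
        exact hHK.symm.mono_left this
  choose! H hH1 hH2 hH3 hH4 using hsep
  set Q : Set S := Z ∩ ⋂ y ∈ t, H y with hQ
  have hQc : IsClosed Q := hZc.inter (isClosed_biInter fun y hy => hH1 y hy)
  have hQc' : IsClosed (Z \ Q) := by
    have : Z \ Q = ⋃ y ∈ t, Z \ H y := by
      ext z; simp only [hQ, mem_diff, mem_inter_iff, mem_iInter, mem_iUnion]
      constructor
      · rintro ⟨h1, h2⟩
        by_contra h3
        push Not at h3
        exact h2 ⟨h1, fun y hy => h3 y hy h1⟩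
      · rintro ⟨y, hy, h1, h2⟩
        exact ⟨h1, fun h3 => h2 (h3.2 y hy)⟩
    rw [this]
    exact isClosed_biUnion_finset fun y hy => hH2 y hy
  have hxQ : x ∈ Q := ⟨hxZ, mem_iInter₂.2 fun y hy => hH3 y hy⟩
  have hQC : Q ⊆ C := by
    intro z hz
    by_contra hzC
    obtain ⟨H', K', hH', hK', hHK', hU', hxH', hzK'⟩ := exists_sep hZc hxZ hz.1 hzC
    have hCH : C ⊆ H' := sub_of_closed isPreconnected_connectedComponentIn hH' hK' hHK'
      (by rw [hU']; exact connectedComponentIn_subset _ _) (mem_connectedComponentIn hxZ) hxH'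
    obtain ⟨y, hy, w, hw1, hw2, hw3⟩ := key (Q ∩ K') (hQc.inter hK') (by
      have : Z \ (Q ∩ K') = (Z \ Q) ∪ H' := by
        ext w; simp only [mem_diff, mem_inter_iff, mem_union]
        constructor
        · rintro ⟨h1, h2⟩
          by_cases h3 : w ∈ Q
          · right
            rcases (hU' ▸ h1 : w ∈ H' ∪ K') with h4 | h4
            · exact h4
            · exact absurd ⟨h3, h4⟩ h2
          · exact Or.inl ⟨h1, h3⟩
        · rintro (⟨h1, h2⟩ | h1)
          · exact ⟨h1, fun h => h2 h.1⟩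
          · exact ⟨hU' ▸ Or.inl h1, fun h => disjoint_left.1 hHK' h1 h.2⟩
      rw [this]; exact hQc'.union hH') (fun w hw => hw.1.1) ⟨z, hz, hzK'⟩
    rcases hH4 y hy with h | h
    · exact disjoint_left.1 hHK' (hCH (h hw1)) hw3
    · exact disjoint_left.1 h hw1 (mem_iInter₂.1 hw2.2 y hy)
  have hCn : C ∈ 𝓝 x := by
    have h1 : (Z \ Q)ᶜ ∈ 𝓝 x := hQc'.isOpen_compl.mem_nhds (fun h => h.2 hxQ)
    filter_upwards [h1, hN3, h₂.mem_nhds hxO] with z hz1 hz2 hz3
    apply hQC
    by_contra h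
    exact hz1 ⟨Or.inl ⟨hz2, subset_closure hz3⟩, h⟩
  exact notMem_T.2 ⟨C, (isClosed_connectedComponentIn' hZc x).isCompact,
    isConnected_connectedComponentIn_iff.2 hxZ, hCn,
    hZd.mono_left (connectedComponentIn_subset _ _)⟩ hx

theorem T_sub_left (hc : Cts S) {A O₁ O₂ : Set S} (h₁ : IsOpen O₁) (h₂ : IsOpen O₂)
    (hd : Disjoint O₁ O₂) (hT : T A ⊆ O₁ ∪ O₂) (hA : A ⊆ O₁) : T A ⊆ O₁ := by
  have := sep hc (A := A) (B := ∅) h₁ h₂ hd (by rwa [union_empty]) hA
  rw [union_empty, T_empty] at this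
  intro x hx
  rcases hT hx with h | h
  · exact h
  · exact absurd (this ⟨hx, h⟩) (notMem_empty _)

theorem sep2 (hc : Cts S) {A B O₁ O₂ : Set S} (h₁ : IsOpen O₁) (h₂ : IsOpen O₂)
    (hd : Disjoint O₁ O₂) (hT : T (A ∪ B) ⊆ O₁ ∪ O₂) (hA : A ⊆ O₁) (hB : B ⊆ O₂) :
    T (A ∪ B) ⊆ T A ∪ T B := by
  intro x hx
  rcases hT hx with h | h
  · left
    refine sep hc (A := B) (B := A) h₂ h₁ hd.symm ?_ hB ⟨?_, h⟩
    · rw [union_comm B, union_comm O₂]; exact hT
    · rw [union_comm]; exact hx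
  · exact Or.inr (sep hc h₁ h₂ hd hT hA ⟨hx, h⟩)

theorem preconn_T (hc : Cts S) (p : S) : IsPreconnected (T ({p} : Set S)) := by
  rw [isPreconnected_iff_subset_of_fully_disjoint_closed (isClosed_T _)]
  intro u v hu hv hs hd
  obtain ⟨O₁, O₂, h₁, h₂, hu', hv', hO⟩ := normal_separation hu hv hd
  have hT : T ({p} : Set S) ⊆ O₁ ∪ O₂ := hs.trans (union_subset_union hu' hv')
  rcases hT (self_mem_T p) with h | h
  · left
    intro x hx
    rcases hs hx with h' | h'
    · exact h'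
    · exact absurd (hv' h') (disjoint_left.1 hO
        (T_sub_left hc h₁ h₂ hO hT (singleton_subset_iff.2 h) hx))
  · right
    intro x hx
    rcases hs hx with h' | h'
    · exact absurd (T_sub_left hc h₂ h₁ hO.symm (by rwa [union_comm])
        (singleton_subset_iff.2 h) hx) (disjoint_left.1 hO (hu' h'))
    · exact h'

end Pool.Agent.H410Z.Jones
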