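import Pool.Agent.H410Z.JonesA

set_option autoImplicit false

open Set Topology Filter

namespace Pool.Agent.H410Z.Jones

variable {S : Type*} [TopologicalSpace S] [CompactSpace S] [T2Space S] [ConnectedSpace S]

theorem lsc1 (hc : Cts S) {U : Set S} (hU : IsOpen U) :
    IsOpen {p : S | (T ({p} : Set S) ∩ U).Nonempty} := by
  simpa using hc.lsc ∅ isClosed_empty U hU

theorem usc1 (hc : Cts S) {U : Set S} (hU : IsOpen U) :
    IsOpen {p : S | T ({p} : Set S) ⊆ U} := by
  simpa using hc.usc ∅ isClosed_empty U hU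

theorem T_trans (hc : Cts S) {A : Set S} {y : S} (h : y ∈ T A) : T ({y} : Set S) ⊆ T A :=
  T_sub_of_sub hc (singleton_subset_iff.2 h)

/-- point symmetry -/
theorem symm (hc : Cts S) {x y : S} (h : y ∈ T ({x} : Set S)) : x ∈ T ({y} : Set S) := by
  by_contra hx
  obtain ⟨U₁, hU₁, hxU₁, hcl₁⟩ := normal_exists_closure_subset (isClosed_singleton (x := x))
    (isClosed_T ({y} : Set S)).isOpen_compl (singleton_subset_iff.2 hx)
  set O : Set S := {p : S | T ({p} : Set S) ⊆ (closure U₁)ᶜ} with hO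
  have hOo : IsOpen O := usc1 hc isClosed_closure.isOpen_compl
  have hyO : y ∈ O := fun z hz hz' => hcl₁ hz' hz
  set U₂ : Set S := U₁ ∩ {p : S | (T ({p} : Set S) ∩ O).Nonempty} with hU₂
  have hU₂o : IsOpen U₂ := hU₁.inter (lsc1 hc hOo)
  have hxU₂ : x ∈ U₂ := ⟨hxU₁ rfl, y, h, hyO⟩
  obtain ⟨U, hU, hxU, hcl⟩ := normal_exists_closure_subset (isClosed_singleton (x := x))
    hU₂o (singleton_subset_iff.2 hxU₂)
  have hxU' : x ∈ U := hxU rfl
  set Z₁ : Set S := {u : S | (T ({u} : Set S) ∩ U₂).Nonempty}ᶜ with hZ₁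
  have hZ₁c : IsClosed Z₁ := (lsc1 hc hU₂o).isClosed_compl
  set P : Set S := {u : S | T ({u} : Set S) ⊆ (closure U)ᶜ} with hP
  have hPo : IsOpen P := usc1 hc isClosed_closure.isOpen_compl
  have hOZ : O ⊆ Z₁ := by
    rintro p hp ⟨z, hz1, hz2⟩
    exact hp hz1 (subset_closure hz2.1)
  have hZP : Z₁ ⊆ P := by
    intro p hp z hz1 hz2
    exact hp ⟨z, hz1, hcl hz2⟩
  have hPU : ∀ p ∈ P, T ({p} : Set S) ⊆ Uᶜ := fun p hp z hz1 hz2 => hp hz1 (subset_closure hz2)
  have hall : ∀ v : S, (T ({v} : Set S) ∩ Z₁).Nonempty := by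
    intro v
    by_cases hv : v ∈ Z₁
    · exact ⟨v, self_mem_T v, hv⟩
    · obtain ⟨x', hx1, hx2⟩ := not_not.1 hv
      obtain ⟨w, hw1, hw2⟩ := hx2.2
      exact ⟨w, T_trans hc hx1 hw1, hOZ hw2⟩
  have hyU : y ∈ Uᶜ := hPU y (hZP (hOZ hyO)) (self_mem_T y)
  have hOC : O ⊆ connectedComponentIn Uᶜ y := by
    intro y' hy'
    by_contra hcon
    have hy'U : y' ∈ Uᶜ := hPU y' (hZP (hOZ hy')) (self_mem_T y')
    obtain ⟨H, K, hH, hK, hHK, hUn, hyH, hy'K⟩ := exists_sep hU.isClosed_compl hyU hy'U hcon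
    set S₂ : Set S := {u : S | (T ({u} : Set S) ∩ (Z₁ ∩ K)).Nonempty} with hS₂
    have hS₂c : IsClosed S₂ := by
      have := (usc1 hc (hZ₁c.inter hK).isOpen_compl).isClosed_compl
      convert this using 1
      ext u
      simp only [hS₂, mem_setOf_eq, mem_compl_iff, ← inter_compl_nonempty_iff, compl_compl]
    have hS₂o : IsOpen S₂ := by
      have := lsc1 hc (hPo.inter hH.isOpen_compl)
      convert this using 1
      ext u
      simp only [hS₂, mem_setOf_eq]
      constructor
      · rintro ⟨v, hv1, hv2, hv3⟩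
        exact ⟨v, hv1, hZP hv2, fun h' => disjoint_left.1 hHK h' hv3⟩
      · rintro ⟨v, hv1, hv2, hv3⟩
        have hvK : v ∈ K := by
          rcases (hUn ▸ hPU v hv2 (self_mem_T v) : v ∈ H ∪ K) with h' | h'
          · exact absurd h' hv3
          · exact h'
        have hTK : T ({v} : Set S) ⊆ K := sub_of_closed (preconn_T hc v) hK hH hHK.symm
          (by rw [union_comm, hUn]; exact hPU v hv2) (self_mem_T v) hvK
        obtain ⟨w, hw1, hw2⟩ := hall v
        exact ⟨w, T_trans hc hv1 hw1, hw2, hTK hw1⟩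
    have huniv : S₂ = univ :=
      IsClopen.eq_univ ⟨hS₂c, hS₂o⟩ ⟨y', y', self_mem_T y', hOZ hy', hy'K⟩
    have hyS : y ∈ S₂ := huniv ▸ mem_univ y
    obtain ⟨w, hw1, -, hw3⟩ := hyS
    have hTH : T ({y} : Set S) ⊆ H := sub_of_closed (preconn_T hc y) hH hK hHK
      (by rw [hUn]; exact hPU y (hZP (hOZ hyO))) (self_mem_T y) hyH
    exact disjoint_left.1 hHK (hTH hw1) hw3
  refine notMem_T.2 ⟨connectedComponentIn Uᶜ y,
    (isClosed_connectedComponentIn' hU.isClosed_compl y).isCompact,
    isConnected_connectedComponentIn_iff.2 hyU, mem_of_superset (hOo.mem_nhds hyO) hOC, ?_⟩ h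
  rw [disjoint_singleton_right]
  exact fun h' => connectedComponentIn_subset _ _ h' hxU'

theorem T_eq_of_mem (hc : Cts S) {x y : S} (h : y ∈ T ({x} : Set S)) :
    T ({y} : Set S) = T ({x} : Set S) :=
  (T_trans hc h).antisymm (T_trans hc (symm hc h))

theorem disj_of_notMem (hc : Cts S) {A : Set S} (hA : T A ⊆ A) {p : S} (hp : p ∉ A) :
    Disjoint A (T ({p} : Set S)) := by
  rw [disjoint_left]
  intro y hy1 hy2
  exact hp (hA (T_mono (singleton_subset_iff.2 hy1) (symm hc hy2)))

/-- the set of points at which `T` is additive over `A` -/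
def E (A : Set S) : Set S := {p : S | T (insert p A) ⊆ A ∪ T ({p} : Set S)}

theorem isClosed_E (hc : Cts S) {A : Set S} (hA : IsClosed A) : IsClosed (E A) := by
  rw [← isOpen_compl_iff, isOpen_iff_mem_nhds]
  intro p hp
  obtain ⟨x, hx1, hx2⟩ := not_subset.1 hp
  obtain ⟨U, hU, hxU, hcl⟩ := normal_exists_closure_subset (isClosed_singleton (x := x))
    (hA.union (isClosed_T ({p} : Set S))).isOpen_compl (singleton_subset_iff.2 hx2)
  have h1 := (hc.lsc A hA U hU).mem_nhds (x := p) ⟨x, hx1, hxU rfl⟩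
  have h2 := (usc1 hc (isClosed_closure (s := U)).isOpen_compl).mem_nhds (x := p)
    (fun z hz hz' => hcl hz' (Or.inr hz))
  filter_upwards [h1, h2] with q hq1 hq2 hq3
  obtain ⟨z, hz1, hz2⟩ := hq1
  rcases hq3 hz1 with h | h
  · exact hcl (subset_closure hz2) (Or.inl h)
  · exact hq2 h (subset_closure hz2)

theorem E_nhds (hc : Cts S) {A : Set S} (hA : IsClosed A) (hTA : T A ⊆ A) {p : S} (hp : p ∈ E A)
    (hpA : p ∉ A) : E A ∈ 𝓝 p := by
  obtain ⟨O₁, O₂, h₁, h₂, hu, hv, hO⟩ :=
    normal_separation hA (isClosed_T ({p} : Set S)) (disj_of_notMem hc hTA hpA)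
  have h1 := (hc.usc A hA _ (h₁.union h₂)).mem_nhds (x := p)
    (Subset.trans hp (union_subset_union hu hv))
  filter_upwards [h1, h₂.mem_nhds (hv (self_mem_T p))] with q hq1 hq2
  have h3 : insert q A = A ∪ {q} := by rw [union_singleton]
  have := sep2 hc (A := A) (B := {q}) h₁ h₂ hO (h3 ▸ hq1) hu (singleton_subset_iff.2 hq2)
  exact (h3 ▸ this).trans (union_subset_union_left _ hTA)

theorem T_insert_T (hc : Cts S) (a p : S) :
    T (insert p (T ({a} : Set S))) = T ({a, p} : Set S) := by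
  apply Subset.antisymm
  · apply T_sub_of_sub hc
    apply insert_subset
    · exact subset_T _ (by simp)
    · exact T_mono (by simp)
  · apply T_mono
    rintro z (rfl | rfl)
    · exact Or.inr (self_mem_T _)
    · exact Or.inl rfl

theorem mem_E_T (hc : Cts S) (a p : S) :
    p ∈ E (T ({a} : Set S)) ↔ T ({a, p} : Set S) ⊆ T ({a} : Set S) ∪ T ({p} : Set S) := by
  simp only [E, mem_setOf_eq, T_insert_T hc]

theorem E_symm (hc : Cts S) {a p : S} (h : p ∈ E (T ({a} : Set S))) : a ∈ E (T ({p} : Set S)) := by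
  rw [mem_E_T hc] at h ⊢
  rw [pair_comm, union_comm]; exact h

theorem sub_E (hA : ∀ A : Set S, T (T A) ⊆ T A) (A : Set S) : T A ⊆ E (T A) := by
  intro p hp
  simp only [E, mem_setOf_eq, insert_eq_of_mem hp]
  exact (hA A).trans subset_union_left

theorem isOpen_E_diff (hc : Cts S) (a : S) :
    IsOpen (E (T ({a} : Set S)) \ T ({a} : Set S)) := by
  rw [isOpen_iff_mem_nhds]
  intro p hp
  exact inter_mem (E_nhds hc (isClosed_T _) (idem hc _) hp.1 hp.2)
    ((isClosed_T _).isOpen_compl.mem_nhds hp.2)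

theorem claim1 (hc : Cts S) {p p' x : S} (h : p' ∉ E (T ({p} : Set S)))
    (hx : x ∈ T ({p, p'} : Set S)) (hxp : x ∉ T ({p} : Set S)) : x ∉ E (T ({p} : Set S)) := by
  intro hxE
  obtain ⟨M, h1, h2, h3, h4⟩ := notMem_T.1 (fun h' => hxp (idem hc _ h'))
  have hMQ : M ⊆ E (T ({p} : Set S)) \ T ({p} : Set S) := by
    apply IsPreconnected.subset_left_of_subset_union (isOpen_E_diff hc p)
      (isClosed_E hc (isClosed_T ({p} : Set S))).isOpen_compl ?_ ?_
      ⟨x, mem_of_mem_nhds h3, hxE, hxp⟩ h2.isPreconnected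
    · rw [disjoint_left]; exact fun z hz hz' => hz' hz.1
    · intro z hz
      by_cases h' : z ∈ E (T ({p} : Set S))
      · exact Or.inl ⟨h', disjoint_left.1 h4 hz⟩
      · exact Or.inr h'
  refine notMem_T.2 ⟨M, h1, h2, h3, ?_⟩ hx
  rw [disjoint_left]
  rintro z hz (rfl | rfl)
  · exact (hMQ hz).2 (self_mem_T _)
  · exact h (hMQ hz).1

theorem preconn_pair (hc : Cts S) {a b : S} (h : b ∉ E (T ({a} : Set S))) :
    IsPreconnected (T ({a, b} : Set S)) := by
  rw [isPreconnected_iff_subset_of_fully_disjoint_closed (isClosed_T _)]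
  intro u v hu hv hs hd
  obtain ⟨O₁, O₂, h₁, h₂, hu', hv', hO⟩ := normal_separation hu hv hd
  have hT : T ({a, b} : Set S) ⊆ O₁ ∪ O₂ := hs.trans (union_subset_union hu' hv')
  have ha : a ∈ O₁ ∪ O₂ := hT (subset_T _ (by simp))
  have hb : b ∈ O₁ ∪ O₂ := hT (subset_T _ (by simp))
  rw [mem_E_T hc] at h
  rcases ha with ha | ha <;> rcases hb with hb | hb
  · left
    intro x hx
    rcases hs hx with h' | h'
    · exact h'
    · exact absurd (hv' h') (disjoint_left.1 hO
        (T_sub_left hc h₁ h₂ hO hT (by rintro z (rfl | rfl) <;> assumption) hx))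
  · exact absurd (sep2 hc (A := {a}) (B := {b}) h₁ h₂ hO hT (singleton_subset_iff.2 ha)
      (singleton_subset_iff.2 hb)) h
  · exact absurd (sep2 hc (A := {a}) (B := {b}) h₂ h₁ hO.symm (by rw [union_comm O₂]; exact hT)
      (singleton_subset_iff.2 ha) (singleton_subset_iff.2 hb)) h
  · right
    intro x hx
    rcases hs hx with h' | h'
    · exact absurd (T_sub_left hc h₂ h₁ hO.symm (by rwa [union_comm])
        (by rintro z (rfl | rfl) <;> assumption) hx) (disjoint_left.1 hO (hu' h'))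
    · exact h'

theorem preconn_E (hc : Cts S) (x : S) : IsPreconnected (E (T ({x} : Set S))) := by
  have hEc := isClosed_E hc (isClosed_T ({x} : Set S))
  have key : ∀ u v : Set S, IsClosed u → IsClosed v → E (T ({x} : Set S)) ⊆ u ∪ v →
      Disjoint u v → x ∈ u → E (T ({x} : Set S)) ⊆ u := by
    intro u v hu hv hs hd hxu
    have hTu : T ({x} : Set S) ⊆ u := sub_of_closed (preconn_T hc x) hu hv hd
      ((sub_E (idem hc) _).trans hs) (self_mem_T x) hxu
    have hcl : IsClopen (E (T ({x} : Set S)) ∩ v) := by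
      refine ⟨hEc.inter hv, ?_⟩
      have : E (T ({x} : Set S)) ∩ v = (E (T ({x} : Set S)) \ T ({x} : Set S)) ∩ uᶜ := by
        ext z
        constructor
        · rintro ⟨h1, h2⟩
          exact ⟨⟨h1, fun h3 => disjoint_left.1 hd (hTu h3) h2⟩, fun h3 => disjoint_left.1 hd h3 h2⟩
        · rintro ⟨⟨h1, -⟩, h2⟩
          rcases hs h1 with h3 | h3
          · exact absurd h3 h2
          · exact ⟨h1, h3⟩
      rw [this]
      exact (isOpen_E_diff hc x).inter hu.isOpen_compl
    rcases isClopen_iff.1 hcl with h | h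
    · intro z hz
      rcases hs hz with h3 | h3
      · exact h3
      · have : z ∈ E (T ({x} : Set S)) ∩ v := ⟨hz, h3⟩
        rw [h] at this; exact absurd this (notMem_empty _)
    · have : x ∈ E (T ({x} : Set S)) ∩ v := h ▸ mem_univ x
      exact absurd this.2 (disjoint_left.1 hd hxu)
  rw [isPreconnected_iff_subset_of_fully_disjoint_closed hEc]
  intro u v hu hv hs hd
  rcases hs (sub_E (idem hc) _ (self_mem_T x)) with h | h
  · exact Or.inl (key u v hu hv hs hd h)
  · exact Or.inr (key v u hv hu (by rwa [union_comm]) hd.symm h)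

theorem pair_add (hc : Cts S) (p p' : S) : p' ∈ E (T ({p} : Set S)) := by
  by_contra h
  have h0 := h
  rw [mem_E_T hc] at h0
  obtain ⟨x, hx1, hx2⟩ := not_subset.1 h0
  have hxp : x ∉ T ({p} : Set S) := fun h' => hx2 (Or.inl h')
  have hxp' : x ∉ T ({p'} : Set S) := fun h' => hx2 (Or.inr h')
  have h1 : p ∉ E (T ({x} : Set S)) := fun h' => claim1 hc h hx1 hxp (E_symm hc h')
  have h2 : p' ∉ E (T ({x} : Set S)) := fun h' =>
    claim1 hc (fun h'' => h (E_symm hc h'')) (by rwa [pair_comm]) hxp' (E_symm hc h')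
  have hcl : IsClosed ({p, p'} : Set S) := (toFinite _).isClosed
  obtain ⟨V, hV, hTV, hVc⟩ := normal_exists_closure_subset (isClosed_T ({x} : Set S))
    hcl.isOpen_compl (by
      rintro z hz (rfl | rfl)
      · exact h1 (sub_E (idem hc) _ hz)
      · exact h2 (sub_E (idem hc) _ hz))
  have hV' := (hc.usc {x} isClosed_singleton V hV).mem_nhds (x := x)
    (by simpa using hTV)
  set Z : Set S := closure V ∪ E (T ({x} : Set S)) with hZ
  have hZc : IsClosed Z := isClosed_closure.union (isClosed_E hc (isClosed_T _))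
  have hxE : x ∈ E (T ({x} : Set S)) := sub_E (idem hc) _ (self_mem_T x)
  have hxZ : x ∈ Z := Or.inr hxE
  refine notMem_T.2 ⟨connectedComponentIn Z x, (isClosed_connectedComponentIn' hZc x).isCompact,
    isConnected_connectedComponentIn_iff.2 hxZ, ?_, ?_⟩ hx1
  · filter_upwards [hV'] with y hy
    by_cases hyE : y ∈ E (T ({x} : Set S))
    · exact (preconn_E hc x).subset_connectedComponentIn hxE subset_union_right hyE
    · have hy' : T ({x, y} : Set S) ⊆ V := by rw [pair_comm]; exact hy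
      exact (preconn_pair hc hyE).subset_connectedComponentIn (subset_T _ (by simp))
        (hy'.trans (subset_closure.trans subset_union_left)) (subset_T _ (by simp))
  · refine Disjoint.mono_left (connectedComponentIn_subset _ _) ?_
    rw [disjoint_left]
    rintro z (hz | hz) hz'
    · exact hVc hz hz'
    · rcases hz' with rfl | rfl
      · exact h1 hz
      · exact h2 hz

theorem step (hc : Cts S) {A : Set S} (hA : IsClosed A) (hTA : T A ⊆ A) (hE : ∀ p, p ∈ E A)
    (a : S) : T (A ∪ T ({a} : Set S)) ⊆ A ∪ T ({a} : Set S) ∧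
      ∀ p, p ∈ E (A ∪ T ({a} : Set S)) := by
  have hT' : T (A ∪ T ({a} : Set S)) ⊆ A ∪ T ({a} : Set S) := by
    refine Subset.trans (T_sub_of_sub hc ?_) (hE a)
    apply union_subset
    · exact (subset_insert _ _).trans (subset_T _)
    · exact T_mono (by simp)
  refine ⟨hT', ?_⟩
  by_cases ha : a ∈ A
  · have : A ∪ T ({a} : Set S) = A :=
      union_eq_left.2 ((T_mono (singleton_subset_iff.2 ha)).trans hTA)
    rw [this]; exact hE
  have hA'c : IsClosed (A ∪ T ({a} : Set S)) := hA.union (isClosed_T _)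
  have hsub : ∀ b ∈ A ∪ T ({a} : Set S), T (insert b (A ∪ T ({a} : Set S))) ⊆
      A ∪ T ({a} : Set S) := by
    intro b hb
    rw [insert_eq_of_mem hb]; exact hT'
  have hclop : IsClopen (E (A ∪ T ({a} : Set S))) := by
    refine ⟨isClosed_E hc hA'c, ?_⟩
    rw [isOpen_iff_mem_nhds]
    intro b hb
    by_cases hbA : b ∈ A ∪ T ({a} : Set S)
    · obtain ⟨O₁, O₂, h₁, h₂, hu, hv, hO⟩ :=
        normal_separation hA (isClosed_T ({a} : Set S)) (disj_of_notMem hc hTA ha)
      have h1 := (hc.usc _ hA'c _ (h₁.union h₂)).mem_nhds (x := b)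
        ((hsub b hbA).trans (union_subset_union hu hv))
      filter_upwards [h1] with p hp
      have hp' : T (insert p (A ∪ T ({a} : Set S))) ⊆ O₁ ∪ O₂ := hp
      show T (insert p (A ∪ T ({a} : Set S))) ⊆ (A ∪ T ({a} : Set S)) ∪ T ({p} : Set S)
      rcases hp' (subset_T _ (mem_insert _ _)) with h | h
      · rw [← insert_union] at hp' ⊢
        refine (sep2 hc h₁ h₂ hO hp' (insert_subset h hu) hv).trans (union_subset ?_ ?_)
        · exact Subset.trans (hE p) (union_subset_union_left _ subset_union_left)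
        · exact (idem hc _).trans (subset_union_right.trans subset_union_left)
      · rw [← union_insert] at hp' ⊢
        refine (sep2 hc h₁ h₂ hO hp' hu (insert_subset h hv)).trans (union_subset ?_ ?_)
        · exact hTA.trans (subset_union_left.trans subset_union_left)
        · exact Subset.trans (pair_add hc a p) (union_subset_union_left _ subset_union_right)
    · exact E_nhds hc hA'c hT' hb hbA
  have := hclop.eq_univ ⟨a, (hsub a (Or.inr (self_mem_T a))).trans subset_union_left⟩
  intro p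
  rw [this]; exact mem_univ p

theorem finite_add (hc : Cts S) {F : Set S} (hF : F.Finite) :
    T F ⊆ ⋃ a ∈ F, T ({a} : Set S) := by
  have : IsClosed (⋃ a ∈ F, T ({a} : Set S)) ∧
      T (⋃ a ∈ F, T ({a} : Set S)) ⊆ (⋃ a ∈ F, T ({a} : Set S)) ∧
      ∀ p, p ∈ E (⋃ a ∈ F, T ({a} : Set S)) := by
    induction F, hF using Set.Finite.induction_on with
    | empty =>
      simp only [mem_empty_iff_false, iUnion_of_empty, iUnion_empty, isClosed_empty, T_empty,
        subset_refl, true_and]
      intro p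
      simp [E]
    | @insert a s _ _ ih =>
      rw [biUnion_insert, union_comm]
      exact ⟨ih.1.union (isClosed_T _), step hc ih.1 ih.2.1 ih.2.2 a⟩
  refine Subset.trans (T_mono ?_) this.2.1
  intro a ha
  exact mem_biUnion ha (self_mem_T a)

theorem T_sub_closed (hc : Cts S) {A C : Set S} (hA : IsClosed A) (hC : IsClosed C)
    (h : ∀ a ∈ A, T ({a} : Set S) ⊆ C) : T A ⊆ C := by
  rcases eq_empty_or_nonempty A with rfl | hne
  · rw [T_empty]; exact empty_subset _
  intro x hx
  by_contra hxC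
  obtain ⟨F, hF, hFA, y, hy1, hy2⟩ := hc.fin A hne Cᶜ hC.isOpen_compl
    ⟨x, by rwa [hA.closure_eq], hxC⟩
  obtain ⟨a, ha, hya⟩ := mem_iUnion₂.1 (finite_add hc hF hy1)
  exact hy2 (h a (hFA ha) hya)

theorem additive (hc : Cts S) {A B : Set S} (hA : IsClosed A) (hB : IsClosed B) :
    T (A ∪ B) = T A ∪ T B := by
  apply Subset.antisymm
  · apply T_sub_closed hc (hA.union hB) ((isClosed_T _).union (isClosed_T _))
    rintro a (ha | ha)
    · exact (T_mono (singleton_subset_iff.2 ha)).trans subset_union_left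
    · exact (T_mono (singleton_subset_iff.2 ha)).trans subset_union_right
  · exact union_subset (T_mono subset_union_left) (T_mono subset_union_right)

end Pool.Agent.H410Z.Jones
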