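import Pool.Agent.H410Z.JonesB

set_option autoImplicit false

open Set Topology Filter

namespace Pool.Agent.H410Z.Jones

variable {S : Type*} [TopologicalSpace S]

/-- the Vietoris topology, in the form of the frozen statements -/
@[reducible] def viet (S : Type*) [TopologicalSpace S] : TopologicalSpace (Set S) :=
  TopologicalSpace.generateFrom
    ({𝒰 : Set (Set S) | ∃ U : Set S, IsOpen U ∧ 𝒰 = {A : Set S | A ⊆ U}} ∪
     {𝒰 : Set (Set S) | ∃ U : Set S, IsOpen U ∧ 𝒰 = {A : Set S | (A ∩ U).Nonempty}})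

theorem viet_eq : viet S = TopologicalSpace.vietoris S := by
  unfold viet TopologicalSpace.vietoris
  congr 1
  ext 𝒰
  simp only [mem_union, mem_setOf_eq, mem_image]
  constructor
  · rintro (⟨U, h, rfl⟩ | ⟨U, h, rfl⟩)
    · exact Or.inl ⟨U, h, rfl⟩
    · exact Or.inr ⟨U, h, rfl⟩
  · rintro (⟨U, h, rfl⟩ | ⟨U, h, rfl⟩)
    · exact Or.inl ⟨U, h, rfl⟩
    · exact Or.inr ⟨U, h, rfl⟩

attribute [local instance] TopologicalSpace.vietoris

theorem cts_of_continuousOn [T1Space S]
    (h : ContinuousOn (T : Set S → Set S) {A : Set S | IsClosed A ∧ A.Nonempty}) : Cts S := by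
  have hins : ∀ A : Set S, IsClosed A → Continuous (fun p : S => T (insert p A)) := by
    intro A hA
    have h1 : Continuous (fun p : S => (insert p A : Set S)) := by
      have : (fun p : S => (insert p A : Set S)) = fun p : S => ({p} : Set S) ∪ A := by
        ext p; simp
      rw [this]
      exact TopologicalSpace.vietoris.continuous_union.comp
        (TopologicalSpace.vietoris.continuous_singleton.prodMk continuous_const)
    refine h.comp_continuous h1 fun p => ⟨?_, insert_nonempty _ _⟩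
    rw [← singleton_union]; exact isClosed_singleton.union hA
  refine ⟨?_, ?_, ?_⟩
  · intro D hD U hU hne
    classical
    obtain ⟨d, hd⟩ := hD
    have ht : Tendsto (fun F : Finset D => ((↑) '' (F : Set D) : Set S)) atTop
        (𝓝[{A : Set S | IsClosed A ∧ A.Nonempty}] (closure D)) := by
      rw [tendsto_nhdsWithin_iff]
      constructor
      · rw [TopologicalSpace.tendsto_nhds_generateFrom_iff]
        rintro _ (⟨V, hV, rfl⟩ | ⟨V, hV, rfl⟩) hs
        · refine Eventually.of_forall fun F => ?_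
          rintro _ ⟨z, -, rfl⟩
          exact hs (subset_closure z.2)
        · obtain ⟨z, hz1, hz2⟩ := hs
          obtain ⟨w, hw1, hw2⟩ := mem_closure_iff.1 hz1 V hV hz2
          filter_upwards [eventually_ge_atTop ({⟨w, hw2⟩} : Finset D)] with F hF
          exact ⟨w, ⟨⟨w, hw2⟩, hF (Finset.mem_singleton_self _), rfl⟩, hw1⟩
      · filter_upwards [eventually_ge_atTop ({⟨d, hd⟩} : Finset D)] with F hF
        exact ⟨(F.finite_toSet.image _).isClosed,
          ⟨d, ⟨d, hd⟩, hF (Finset.mem_singleton_self _), rfl⟩⟩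
    have h2 := (h (closure D) ⟨isClosed_closure, ⟨d, subset_closure hd⟩⟩).tendsto.comp ht
    have h3 := h2.eventually
      ((TopologicalSpace.vietoris.isOpen_inter_nonempty_of_isOpen hU).mem_nhds hne)
    obtain ⟨F, hF⟩ := h3.exists
    refine ⟨_, F.finite_toSet.image _, ?_, hF⟩
    rintro _ ⟨z, -, rfl⟩
    exact z.2
  · intro A hA U hU
    exact (TopologicalSpace.vietoris.isOpen_inter_nonempty_of_isOpen hU).preimage (hins A hA)
  · intro A hA U hU
    exact hU.powerset_vietoris.preimage (hins A hA)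

variable [CompactSpace S] [T2Space S] [ConnectedSpace S]

theorem eq_or_disjoint (hc : Cts S) (p q : S) :
    T ({p} : Set S) = T ({q} : Set S) ∨ Disjoint (T ({p} : Set S)) (T ({q} : Set S)) := by
  by_cases h : Disjoint (T ({p} : Set S)) (T ({q} : Set S))
  · exact Or.inr h
  · obtain ⟨z, h1, h2⟩ := not_disjoint_iff.1 h
    exact Or.inl ((T_eq_of_mem hc h1).symm.trans (T_eq_of_mem hc h2))

theorem continuous_T_singleton (hc : Cts S) : Continuous (fun p : S => T ({p} : Set S)) := by
  rw [continuous_generateFrom_iff]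
  rintro _ (⟨V, hV, rfl⟩ | ⟨V, hV, rfl⟩)
  · exact usc1 hc hV
  · exact lsc1 hc hV

theorem locConn (hc : Cts S) (r : S → S → Prop)
    (hr : ∀ p q : S, r p q ↔ T ({p} : Set S) = T ({q} : Set S)) :
    LocallyConnectedSpace (Quot r) := by
  have hequiv : Equivalence r := ⟨fun p => (hr p p).2 rfl,
    fun {p q} h => (hr q p).2 ((hr p q).1 h).symm,
    fun {p q s} h1 h2 => (hr p s).2 (((hr p q).1 h1).trans ((hr q s).1 h2))⟩
  have hq : ∀ p q : S, Quot.mk r p = Quot.mk r q ↔ q ∈ T ({p} : Set S) := by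
    intro p q
    rw [Quot.eq, hequiv.eqvGen_iff, hr]
    constructor
    · intro h; rw [h]; exact self_mem_T q
    · intro h; exact (T_eq_of_mem hc h).symm
  have hquot : IsQuotientMap (Quot.mk r) := isQuotientMap_quot_mk
  have hopen : IsOpenMap (Quot.mk r) := by
    intro U hU
    rw [← hquot.isOpen_preimage]
    convert lsc1 hc hU using 1
    ext p
    simp only [mem_preimage, mem_image, mem_setOf_eq]
    constructor
    · rintro ⟨z, hz1, hz2⟩
      exact ⟨z, (hq p z).1 hz2.symm, hz1⟩
    · rintro ⟨z, hz1, hz2⟩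
      exact ⟨z, hz2, ((hq p z).2 hz1).symm⟩
  rw [locallyConnectedSpace_iff_connected_subsets]
  intro y U hU
  obtain ⟨x, rfl⟩ := Quot.exists_rep y
  obtain ⟨V, hVU, hV, hxV⟩ := mem_nhds_iff.1 hU
  have hA : IsClosed ((Quot.mk r ⁻¹' V)ᶜ) := (hV.preimage hquot.continuous).isClosed_compl
  have hT : T ((Quot.mk r ⁻¹' V)ᶜ) ⊆ (Quot.mk r ⁻¹' V)ᶜ := by
    apply T_sub_closed hc hA hA
    intro a ha z hz hzV
    apply ha
    rw [mem_preimage, (hq a z).2 hz]; exact hzV
  obtain ⟨W, -, h2, h3, h4⟩ := notMem_T.1 (fun h => hT h hxV)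
  refine ⟨Quot.mk r '' W, hopen.image_mem_nhds h3,
    h2.isPreconnected.image _ hquot.continuous.continuousOn, ?_⟩
  rintro _ ⟨z, hz, rfl⟩
  apply hVU
  by_contra h
  exact disjoint_left.1 h4 hz h

theorem indec (hc : Cts S) {p : S} (hp : (interior (T ({p} : Set S))).Nonempty)
    {A B : Set S} (hA : IsCompact A) (hA' : IsConnected A) (hB : IsClosed B)
    (hU : A ∪ B = univ) : A = univ ∨ B = univ := by
  obtain ⟨u, hu⟩ := hp
  have hsub : T ({p} : Set S) ⊆ interior (T ({p} : Set S)) := by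
    intro y hy
    by_contra hyi
    have h1 := idem0 hc (isClosed_T ({p} : Set S)).isCompact ⟨⟨p, self_mem_T p⟩, preconn_T hc p⟩
    have h2 : u ∈ T ({y} : Set S) := by
      rw [T_eq_of_mem hc hy]; exact interior_subset hu
    exact h1 (T_mono (singleton_subset_iff.2 hyi) h2) hu
  have hopen : IsOpen (T ({p} : Set S)) := by
    rw [← subset_interior_iff_isOpen]; exact hsub
  have huniv : T ({p} : Set S) = univ :=
    IsClopen.eq_univ ⟨isClosed_T _, hopen⟩ ⟨p, self_mem_T p⟩
  by_cases hBu : B = univ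
  · exact Or.inr hBu
  left
  obtain ⟨x, hx⟩ := (ne_univ_iff_exists_notMem _).1 hBu
  have hxA : A ∈ 𝓝 x := by
    filter_upwards [hB.isOpen_compl.mem_nhds hx] with z hz
    rcases (hU ▸ mem_univ z : z ∈ A ∪ B) with h | h
    · exact h
    · exact absurd h hz
  rw [eq_univ_iff_forall]
  intro y
  have hy : x ∈ T ({y} : Set S) := by
    rw [T_eq_of_mem hc (huniv ▸ mem_univ y : y ∈ T ({p} : Set S)), huniv]; exact mem_univ x
  obtain ⟨z, hz1, hz2⟩ := mem_T.1 hy A hA hA' hxA
  rwa [← mem_singleton_iff.1 hz2]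

end Pool.Agent.H410Z.Jones
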