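import Mathlib

set_option autoImplicit false

namespace Pool.Agent.H410Z.Jones

/-- Jones's set function: `T A` is the set of points `p` all of whose continuum neighbourhoods
(compact connected `W` with `p` in the interior of `W`) meet `A`. -/
def T {S : Type*} [TopologicalSpace S] (A : Set S) : Set S :=
  {p : S | ∀ W : Set S, IsCompact W → IsConnected W → p ∈ interior W → (W ∩ A).Nonempty}

end Pool.Agent.H410Z.Jones
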