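import Pool.Agent.H410Z.SO3Path

set_option autoImplicit false

open Matrix Set

namespace Pool.Agent.H410Z.KakRot

open Pool.Agent.H410Z.SO3Path

abbrev E := EuclideanSpace ℝ (Fin 3)

/-- The closed unit ball with a cap cut off. -/
def S : Set E := {v | ‖v‖ ≤ 1 ∧ v 0 ≤ 3 / 4}

lemma normsq (v : E) : ‖v‖ ^ 2 = v 0 ^ 2 + v 1 ^ 2 + v 2 ^ 2 := by
  rw [EuclideanSpace.real_norm_sq_eq, Fin.sum_univ_three]

lemma act_apply (A : M3) (v : E) (i : Fin 3) :
    (Matrix.toEuclideanLin A v) i = A i 0 * v 0 + A i 1 * v 1 + A i 2 * v 2 := by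
  change (A *ᵥ v.ofLp) i = _
  simp [Matrix.mulVec, dotProduct, Fin.sum_univ_three]

lemma act_norm {A : M3} (hA : SO A) (v : E) : ‖Matrix.toEuclideanLin A v‖ = ‖v‖ := by
  obtain ⟨hc, -⟩ := entries hA
  have c00 := hc 0 0
  have c11 := hc 1 1
  have c22 := hc 2 2
  have c01 := hc 0 1
  have c02 := hc 0 2
  have c12 := hc 1 2
  simp only [one_apply_eq, ne_eq, Fin.reduceEq, not_false_eq_true, one_apply_ne]
    at c00 c11 c22 c01 c02 c12
  have : ‖Matrix.toEuclideanLin A v‖ ^ 2 = ‖v‖ ^ 2 := by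
    rw [normsq, normsq, act_apply, act_apply, act_apply]
    linear_combination (v 0 ^ 2) * c00 + (v 1 ^ 2) * c11 + (v 2 ^ 2) * c22
      + (2 * v 0 * v 1) * c01 + (2 * v 0 * v 2) * c02 + (2 * v 1 * v 2) * c12
  exact (sq_eq_sq₀ (norm_nonneg _) (norm_nonneg _)).1 this

lemma act_mul (A B : M3) (v : E) :
    Matrix.toEuclideanLin A (Matrix.toEuclideanLin B v) = Matrix.toEuclideanLin (A * B) v := by
  ext i
  simp only [act_apply, Matrix.mul_apply, Fin.sum_univ_three]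
  ring

lemma act_one (v : E) : Matrix.toEuclideanLin (1 : M3) v = v := by
  ext i
  change ((1 : M3) *ᵥ v.ofLp) i = _
  rw [Matrix.one_mulVec]

lemma S_convex : Convex ℝ S := by
  have h1 : Convex ℝ (Metric.closedBall (0 : E) 1) := convex_closedBall _ _
  intro x hx y hy a b ha hb hab
  refine ⟨?_, ?_⟩
  · have := h1 (mem_closedBall_zero_iff.2 hx.1) (mem_closedBall_zero_iff.2 hy.1) ha hb hab
    exact mem_closedBall_zero_iff.1 this
  · have h2 := hx.2
    have h3 := hy.2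
    simp only [PiLp.add_apply, PiLp.smul_apply, smul_eq_mul]
    nlinarith

lemma S_compact : IsCompact S := by
  have hc : IsClosed S := by
    have : S = {v : E | ‖v‖ ≤ 1} ∩ {v : E | v 0 ≤ 3 / 4} := rfl
    rw [this]
    exact (isClosed_le continuous_norm continuous_const).inter
      (isClosed_le (by fun_prop) continuous_const)
  exact (isCompact_closedBall (0 : E) 1).of_isClosed_subset hc
    fun v hv => mem_closedBall_zero_iff.2 hv.1

noncomputable def mk (a b c : ℝ) : E := WithLp.toLp 2 ![a, b, c]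

@[simp] lemma mk0 (a b c : ℝ) : mk a b c 0 = a := rfl
@[simp] lemma mk1 (a b c : ℝ) : mk a b c 1 = b := rfl
@[simp] lemma mk2 (a b c : ℝ) : mk a b c 2 = c := rfl

lemma mem_S (v : E) : v ∈ S ↔ v 0 ^ 2 + v 1 ^ 2 + v 2 ^ 2 ≤ 1 ∧ v 0 ≤ 3 / 4 := by
  unfold S
  rw [mem_ofPred_eq, ← normsq, sq_le_one_iff₀ (norm_nonneg _)]

lemma S_nonempty : S.Nonempty := ⟨mk 0 0 0, by rw [mem_S]; norm_num⟩

lemma not_point : ¬ ∃ a : E, S = {a} := by
  rintro ⟨a, h⟩
  have h1 : mk 0 0 0 ∈ S := by rw [mem_S]; norm_num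
  have h2 : mk 0 1 0 ∈ S := by rw [mem_S]; norm_num
  rw [h, mem_singleton_iff] at h1 h2
  have := congrArg (fun v : E => v 1) (h1.trans h2.symm)
  simp at this

lemma not_segment : ¬ ∃ a b : E, a ≠ b ∧ S = segment ℝ a b := by
  rintro ⟨a, b, -, h⟩
  have h1 : mk 0 0 0 ∈ S := by rw [mem_S]; norm_num
  have h2 : mk 0 1 0 ∈ S := by rw [mem_S]; norm_num
  have h3 : mk 0 0 1 ∈ S := by rw [mem_S]; norm_num
  rw [h, segment_eq_image'] at h1 h2 h3
  obtain ⟨s, -, hs⟩ := h1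
  obtain ⟨t, -, ht⟩ := h2
  obtain ⟨u, -, hu⟩ := h3
  have s1 := congrArg (fun v : E => v 1) hs
  have s2 := congrArg (fun v : E => v 2) hs
  have t1 := congrArg (fun v : E => v 1) ht
  have t2 := congrArg (fun v : E => v 2) ht
  have u1 := congrArg (fun v : E => v 1) hu
  have u2 := congrArg (fun v : E => v 2) hu
  simp only [PiLp.add_apply, PiLp.smul_apply, PiLp.sub_apply, smul_eq_mul, mk1, mk2]
    at s1 s2 t1 t2 u1 u2
  have e1 : (t - s) * (b 1 - a 1) = 1 := by linarith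
  have e2 : (t - s) * (b 2 - a 2) = 0 := by linarith
  have e3 : (u - s) * (b 1 - a 1) = 0 := by linarith
  have e4 : (u - s) * (b 2 - a 2) = 1 := by linarith
  have : ((t - s) * (b 1 - a 1)) * ((u - s) * (b 2 - a 2))
      = ((t - s) * (b 2 - a 2)) * ((u - s) * (b 1 - a 1)) := by ring
  rw [e1, e2, e3, e4] at this
  norm_num at this

lemma not_ball : ¬ ∃ (c : E) (r : ℝ), 0 < r ∧ S = Metric.closedBall c r := by
  rintro ⟨c, r, hr, h⟩
  have symm : ∀ v ∈ S, (2 : ℝ) • c - v ∈ S := by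
    intro v hv
    rw [h, Metric.mem_closedBall, dist_eq_norm] at hv ⊢
    have : (2 : ℝ) • c - v - c = -(v - c) := by module
    rw [this, norm_neg]; exact hv
  have h1 := symm (mk 0 1 0) (by rw [mem_S]; norm_num)
  have h2 := symm (mk 0 (-1) 0) (by rw [mem_S]; norm_num)
  have h3 := symm (mk (-1) 0 0) (by rw [mem_S]; norm_num)
  rw [mem_S] at h1 h2 h3
  simp only [PiLp.smul_apply, PiLp.sub_apply, smul_eq_mul, mk0, mk1, mk2] at h1 h2 h3
  have : c 0 = 0 := by nlinarith [h1.1, h2.1, sq_nonneg (c 0), sq_nonneg (c 1), sq_nonneg (c 2)]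
  have := h3.2
  linarith

/-- six rotations whose first rows are the signed coordinate vectors -/
def N : Fin 6 → M3 :=
  ![!![1, 0, 0; 0, 1, 0; 0, 0, 1], !![-1, 0, 0; 0, -1, 0; 0, 0, 1],
    !![0, 1, 0; 0, 0, 1; 1, 0, 0], !![0, -1, 0; 0, 0, -1; 1, 0, 0],
    !![0, 0, 1; 1, 0, 0; 0, 1, 0], !![0, 0, -1; -1, 0, 0; 0, 1, 0]]

lemma N_SO (k : Fin 6) : SO (N k) := by
  rw [SO_iff]
  fin_cases k
  all_goals
    constructor
    · ext i j
      fin_cases i <;> fin_cases j <;> simp [N, Matrix.mul_apply, Fin.sum_univ_three]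
    · simp [N, Matrix.det_fin_three]

def f (k : Fin 6) (u : E) : ℝ := ![u 0, -u 0, u 1, -u 1, u 2, -u 2] k

lemma N_f (k : Fin 6) (u : E) : (Matrix.toEuclideanLin (N k) u) 0 = f k u := by
  rw [act_apply]
  fin_cases k <;> simp [N, f]

lemma f_inj {u : E} (hu : ‖u‖ ≤ 1) {k l : Fin 6} (hk : 3 / 4 < f k u) (hl : 3 / 4 < f l u) :
    k = l := by
  have h : u 0 ^ 2 + u 1 ^ 2 + u 2 ^ 2 ≤ 1 := by
    rw [← normsq, sq_le_one_iff₀ (norm_nonneg _)]; exact hu
  have s0 := sq_nonneg (u 0)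
  have s1 := sq_nonneg (u 1)
  have s2 := sq_nonneg (u 2)
  fin_cases k <;> fin_cases l <;> simp [f] at hk hl ⊢ <;> nlinarith

lemma cover (I : Finset (Metric.closedBall (0 : E) 1)) (hI : I.card ≤ 4) :
    ∃ k : Fin 6, ∀ u ∈ I, f k u.1 ≤ 3 / 4 := by
  by_contra hcon
  push Not at hcon
  choose g hg1 hg2 using hcon
  have hinj : Function.Injective g := by
    intro k l hkl
    have h1 := hg2 k
    have h2 := hg2 l
    rw [← hkl] at h2
    exact f_inj (mem_closedBall_zero_iff.1 (g k).2) h1 h2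
  have := Finset.card_le_card_of_injOn (s := Finset.univ) (t := I) g (fun k _ => hg1 k)
    (hinj.injOn)
  simp at this
  omega

theorem ball_in {K : Set E} (hK : Convex ℝ K) (hc : IsCompact K)
    (hS : ∀ ρ ∈ Matrix.specialOrthogonalGroup (Fin 3) ℝ,
      ∃ x : E, (fun v => Matrix.toEuclideanLin ρ v + x) '' S ⊆ K) :
    ∃ c : E, ∀ u : E, ‖u‖ ≤ 1 → u + c ∈ K := by
  have := Convex.helly_theorem_compact' (𝕜 := ℝ) (E := E)
    (F := fun u : Metric.closedBall (0 : E) 1 => (fun x => u.1 + x) ⁻¹' K)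
    (fun u => hK.translate_preimage_right u.1)
    (fun u => (Homeomorph.addLeft u.1).isCompact_preimage.2 hc)
    (fun I hI => ?_)
  · obtain ⟨c, hc⟩ := this
    refine ⟨c, fun u hu => ?_⟩
    rw [mem_iInter] at hc
    exact hc ⟨u, mem_closedBall_zero_iff.2 hu⟩
  · have hI' : I.card ≤ 4 := by simpa using hI
    obtain ⟨k, hk⟩ := cover I hI'
    obtain ⟨x, hx⟩ := hS (N k)ᵀ (N_SO k).tr
    refine ⟨x, ?_⟩
    simp only [mem_iInter, mem_preimage]
    intro u hu
    apply hx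
    refine ⟨Matrix.toEuclideanLin (N k) u.1, ⟨?_, ?_⟩, ?_⟩
    · rw [act_norm (N_SO k)]; exact mem_closedBall_zero_iff.1 u.2
    · rw [N_f]; exact hk u hu
    · simp only [act_mul, (N_SO k).tr_mul, act_one]

noncomputable def cl (s : ℝ) : ℝ := max 0 (min 1 s)

lemma cl_cont : Continuous cl := by unfold cl; fun_prop

lemma cl_nonneg (s : ℝ) : 0 ≤ cl s := le_max_left _ _
lemma cl_le (s : ℝ) : cl s ≤ 1 := max_le zero_le_one (min_le_left _ _)
lemma cl_zero {s : ℝ} (h : s ≤ 0) : cl s = 0 := max_eq_left ((min_le_right _ _).trans h)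
lemma cl_one {s : ℝ} (h : 1 ≤ s) : cl s = 1 := by
  unfold cl; rw [min_eq_left h, max_eq_right zero_le_one]

theorem motion {K : Set E} (hK : Convex ℝ K) (c : E) (hc : ∀ u : E, ‖u‖ ≤ 1 → u + c ∈ K)
    (ρ₀ ρ₁ : M3) (x₀ x₁ : E) (h₀ : SO ρ₀) (h₁ : SO ρ₁)
    (k₀ : (fun v => Matrix.toEuclideanLin ρ₀ v + x₀) '' S ⊆ K)
    (k₁ : (fun v => Matrix.toEuclideanLin ρ₁ v + x₁) '' S ⊆ K) :
    ∃ γ : ℝ → M3, ∃ δ : ℝ → E,
      Continuous γ ∧ Continuous δ ∧ γ 0 = ρ₀ ∧ γ 1 = ρ₁ ∧ δ 0 = x₀ ∧ δ 1 = x₁ ∧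
      ∀ t ∈ Set.Icc (0 : ℝ) 1,
        γ t ∈ Matrix.specialOrthogonalGroup (Fin 3) ℝ ∧
        (fun v => Matrix.toEuclideanLin (γ t) v + δ t) '' S ⊆ K := by
  obtain ⟨η, hη, η0, η1, hso⟩ := path h₀ h₁
  have hcl := cl_cont
  refine ⟨fun t => η (cl (3 * t - 1)),
    fun t => x₀ + cl (3 * t) • (c - x₀) + cl (3 * t - 2) • (x₁ - c),
    hη.comp (hcl.comp (by fun_prop)), by fun_prop, ?_, ?_, ?_, ?_, ?_⟩
  · simp only; rw [cl_zero (by norm_num), η0]
  · simp only; rw [cl_one (by norm_num), η1]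
  · simp only; rw [cl_zero (by norm_num), cl_zero (by norm_num)]; simp
  · simp only; rw [cl_one (by norm_num), cl_one (by norm_num)]; simp
  · intro t _
    refine ⟨hso _, ?_⟩
    rintro _ ⟨v, hv, rfl⟩
    have inball : ∀ ρ : M3, SO ρ → Matrix.toEuclideanLin ρ v + c ∈ K := fun ρ hρ =>
      hc _ (by rw [act_norm hρ]; exact hv.1)
    simp only
    rcases le_total t (1 / 3) with h1 | h1
    · rw [cl_zero (s := 3 * t - 1) (by linarith), cl_zero (s := 3 * t - 2) (by linarith), η0]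
      have a := k₀ ⟨v, hv, rfl⟩
      have b := inball ρ₀ h₀
      have := hK a b (sub_nonneg.2 (cl_le (3 * t))) (cl_nonneg (3 * t)) (by ring)
      convert this using 1
      simp only
      module
    rcases le_total t (2 / 3) with h2 | h2
    · rw [cl_one (s := 3 * t) (by linarith), cl_zero (s := 3 * t - 2) (by linarith)]
      have b := inball _ (hso (cl (3 * t - 1)))
      convert b using 1
      module
    · rw [cl_one (s := 3 * t) (by linarith), cl_one (s := 3 * t - 1) (by linarith), η1]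
      have a := k₁ ⟨v, hv, rfl⟩
      have b := inball ρ₁ h₁
      have := hK b a (sub_nonneg.2 (cl_le (3 * t - 2))) (cl_nonneg (3 * t - 2)) (by ring)
      convert this using 1
      simp only
      module

end Pool.Agent.H410Z.KakRot
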