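import Mathlib

set_option autoImplicit false

namespace Pool.Agent.H410Z.QuasiFixed

/-- the orthogonal map `(t, z₁, z₂) ↦ (-t, i z₁, i z₂)` of `ℝ × ℂ²`, of determinant `-1` -/
noncomputable def rot : EuclideanSpace ℝ (Fin 5) ≃ₗᵢ[ℝ] EuclideanSpace ℝ (Fin 5) where
  toFun p := !₂[-p 0, -p 2, p 1, -p 4, p 3]
  invFun p := !₂[-p 0, p 2, -p 1, p 4, -p 3]
  map_add' p q := by ext i; fin_cases i <;> simp <;> ring
  map_smul' c p := by ext i; fin_cases i <;> simp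
  left_inv p := by ext i; fin_cases i <;> simp
  right_inv p := by ext i; fin_cases i <;> simp
  norm_map' p := by
    simp only [EuclideanSpace.norm_eq, Fin.sum_univ_five]
    congr 1
    simp
    ring

/-- the height together with a Hopf map -/
def phi : Fin 4 → EuclideanSpace ℝ (Fin 5) → ℝ :=
  ![fun p => p 0, fun p => p 1 ^ 2 - p 2 ^ 2 - p 3 ^ 2 + p 4 ^ 2,
    fun p => 2 * (p 1 * p 2 + p 3 * p 4), fun p => 2 * (p 1 * p 3 - p 2 * p 4)]

theorem cont (i : Fin 4) : Continuous (phi i) := by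
  fin_cases i <;> simp only [phi] <;> simp <;> fun_prop

theorem key (p : EuclideanSpace ℝ (Fin 5)) (h : ∀ i, phi i (rot p) = phi i p) : p = 0 := by
  have h0 := h 0
  have h1 := h 1
  have h2 := h 2
  have h3 := h 3
  simp [phi, rot] at h0 h1 h2 h3
  have e0 : p 0 = 0 := by linarith
  have e1 : p 1 ^ 2 - p 2 ^ 2 - p 3 ^ 2 + p 4 ^ 2 = 0 := by linarith
  have e2 : p 1 * p 2 + p 3 * p 4 = 0 := by linarith
  have e3 : p 1 * p 3 - p 2 * p 4 = 0 := by linarith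
  have e4 : (p 1 ^ 2 + p 2 ^ 2 + p 3 ^ 2 + p 4 ^ 2) ^ 2 = 0 := by
    have : (p 1 ^ 2 + p 2 ^ 2 + p 3 ^ 2 + p 4 ^ 2) ^ 2 =
        (p 1 ^ 2 - p 2 ^ 2 - p 3 ^ 2 + p 4 ^ 2) ^ 2 + 4 * (p 1 * p 2 + p 3 * p 4) ^ 2
          + 4 * (p 1 * p 3 - p 2 * p 4) ^ 2 := by ring
    rw [this, e1, e2, e3]; ring
  have e5 := pow_eq_zero_iff (two_ne_zero) |>.1 e4
  ext i
  fin_cases i
  · exact e0
  · show p 1 = 0; nlinarith [sq_nonneg (p 1), sq_nonneg (p 2), sq_nonneg (p 3), sq_nonneg (p 4)]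
  · show p 2 = 0; nlinarith [sq_nonneg (p 1), sq_nonneg (p 2), sq_nonneg (p 3), sq_nonneg (p 4)]
  · show p 3 = 0; nlinarith [sq_nonneg (p 1), sq_nonneg (p 2), sq_nonneg (p 3), sq_nonneg (p 4)]
  · show p 4 = 0; nlinarith [sq_nonneg (p 1), sq_nonneg (p 2), sq_nonneg (p 3), sq_nonneg (p 4)]

end Pool.Agent.H410Z.QuasiFixed
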