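import Mathlib

set_option autoImplicit false

open Matrix

namespace Pool.Agent.H410Z.SO3Path

abbrev M3 := Matrix (Fin 3) (Fin 3) ℝ

/-- membership in SO(3) -/
def SO (A : M3) : Prop := A ∈ Matrix.specialOrthogonalGroup (Fin 3) ℝ

lemma SO_iff (A : M3) : SO A ↔ A * Aᵀ = 1 ∧ A.det = 1 := by
  unfold SO
  rw [Matrix.mem_specialOrthogonalGroup_iff, Matrix.mem_orthogonalGroup_iff]

lemma SO.mul {A B : M3} (hA : SO A) (hB : SO B) : SO (A * B) :=
  Submonoid.mul_mem _ hA hB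

lemma SO.tr_mul {A : M3} (hA : SO A) : Aᵀ * A = 1 :=
  mul_eq_one_comm.1 ((SO_iff A).1 hA).1

lemma SO.mul_tr {A : M3} (hA : SO A) : A * Aᵀ = 1 := ((SO_iff A).1 hA).1

lemma SO.tr {A : M3} (hA : SO A) : SO Aᵀ := by
  rw [SO_iff]
  refine ⟨by rw [transpose_transpose]; exact hA.tr_mul, ?_⟩
  rw [det_transpose]; exact ((SO_iff A).1 hA).2

/-- joined to the identity inside SO(3) -/
def J (A : M3) : Prop :=
  ∃ γ : ℝ → M3, Continuous γ ∧ γ 0 = 1 ∧ γ 1 = A ∧ ∀ t, SO (γ t)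

lemma J.so {A : M3} (h : J A) : SO A := by
  obtain ⟨γ, -, -, h1, h⟩ := h
  rw [← h1]; exact h 1

lemma J.mul {A B : M3} (hA : J A) (hB : J B) : J (A * B) := by
  obtain ⟨γ, hc, h0, h1, h⟩ := hA
  obtain ⟨γ', hc', h0', h1', h'⟩ := hB
  exact ⟨fun t => γ t * γ' t, hc.mul hc', by simp [h0, h0'], by simp [h1, h1'],
    fun t => (h t).mul (h' t)⟩

lemma J.tr {A : M3} (hA : J A) : J Aᵀ := by
  obtain ⟨γ, hc, h0, h1, h⟩ := hA
  exact ⟨fun t => (γ t)ᵀ, hc.matrix_transpose, by simp [h0], by simp [h1], fun t => (h t).tr⟩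

noncomputable def Rz (θ : ℝ) : M3 :=
  !![Real.cos θ, Real.sin θ, 0; -Real.sin θ, Real.cos θ, 0; 0, 0, 1]
noncomputable def Ry (θ : ℝ) : M3 :=
  !![Real.cos θ, 0, Real.sin θ; 0, 1, 0; -Real.sin θ, 0, Real.cos θ]
noncomputable def Rx (θ : ℝ) : M3 :=
  !![1, 0, 0; 0, Real.cos θ, -Real.sin θ; 0, Real.sin θ, Real.cos θ]

lemma SO_Rz (θ : ℝ) : SO (Rz θ) := by
  have h := Real.cos_sq_add_sin_sq θ
  rw [SO_iff]
  constructor
  · ext i j
    fin_cases i <;> fin_cases j <;> simp [Rz, Matrix.mul_apply, Fin.sum_univ_three] <;> nlinarith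
  · simp [Rz, Matrix.det_fin_three]; nlinarith

lemma SO_Ry (θ : ℝ) : SO (Ry θ) := by
  have h := Real.cos_sq_add_sin_sq θ
  rw [SO_iff]
  constructor
  · ext i j
    fin_cases i <;> fin_cases j <;> simp [Ry, Matrix.mul_apply, Fin.sum_univ_three] <;> nlinarith
  · simp [Ry, Matrix.det_fin_three]; nlinarith

lemma SO_Rx (θ : ℝ) : SO (Rx θ) := by
  have h := Real.cos_sq_add_sin_sq θ
  rw [SO_iff]
  constructor
  · ext i j
    fin_cases i <;> fin_cases j <;> simp [Rx, Matrix.mul_apply, Fin.sum_univ_three] <;> nlinarith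
  · simp [Rx, Matrix.det_fin_three]; nlinarith

lemma J_Rz (θ : ℝ) : J (Rz θ) := by
  refine ⟨fun t => Rz (t * θ), ?_, ?_, by simp, fun t => SO_Rz _⟩
  · refine continuous_matrix fun i j => ?_
    fin_cases i <;> fin_cases j <;> simp [Rz] <;> fun_prop
  · ext i j
    fin_cases i <;> fin_cases j <;> simp [Rz]

lemma J_Ry (θ : ℝ) : J (Ry θ) := by
  refine ⟨fun t => Ry (t * θ), ?_, ?_, by simp, fun t => SO_Ry _⟩
  · refine continuous_matrix fun i j => ?_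
    fin_cases i <;> fin_cases j <;> simp [Ry] <;> fun_prop
  · ext i j
    fin_cases i <;> fin_cases j <;> simp [Ry]

lemma J_Rx (θ : ℝ) : J (Rx θ) := by
  refine ⟨fun t => Rx (t * θ), ?_, ?_, by simp, fun t => SO_Rx _⟩
  · refine continuous_matrix fun i j => ?_
    fin_cases i <;> fin_cases j <;> simp [Rx] <;> fun_prop
  · ext i j
    fin_cases i <;> fin_cases j <;> simp [Rx]

lemma polar (a b : ℝ) : ∃ r θ : ℝ, 0 ≤ r ∧ a = r * Real.cos θ ∧ b = r * Real.sin θ := by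
  refine ⟨‖(⟨a, b⟩ : ℂ)‖, Complex.arg ⟨a, b⟩, norm_nonneg _, ?_, ?_⟩
  · rw [Complex.norm_mul_cos_arg]
  · rw [Complex.norm_mul_sin_arg]

lemma entries {A : M3} (hA : SO A) :
    (∀ i j, A 0 i * A 0 j + A 1 i * A 1 j + A 2 i * A 2 j = (1 : M3) i j) ∧
    (∀ i j, A i 0 * A j 0 + A i 1 * A j 1 + A i 2 * A j 2 = (1 : M3) i j) := by
  constructor
  · intro i j
    rw [← hA.tr_mul, Matrix.mul_apply, Fin.sum_univ_three]; rfl
  · intro i j
    rw [← hA.mul_tr, Matrix.mul_apply, Fin.sum_univ_three]; rfl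

lemma J_of_col {A : M3} (hA : SO A) (h1 : A 1 0 = 0) (h2 : A 2 0 = 0) (h0 : 0 ≤ A 0 0) :
    J A := by
  obtain ⟨hc, hr⟩ := entries hA
  have hd := ((SO_iff A).1 hA).2
  rw [Matrix.det_fin_three] at hd
  have c00 := hc 0 0
  have c11 := hc 1 1
  have c22 := hc 2 2
  have c12 := hc 1 2
  have r00 := hr 0 0
  simp only [one_apply_eq, ne_eq, Fin.reduceEq, not_false_eq_true, one_apply_ne] at c00 c11 c22 c12 r00
  rw [h1, h2] at c00
  have a00 : A 0 0 = 1 := by nlinarith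
  rw [a00] at r00
  have a01 : A 0 1 = 0 := by nlinarith
  have a02 : A 0 2 = 0 := by nlinarith
  rw [a00, a01, a02, h1, h2] at hd
  rw [a01] at c11 c12
  rw [a02] at c22
  have e : (A 2 2 - A 1 1) ^ 2 + (A 1 2 + A 2 1) ^ 2 = 0 := by nlinarith
  have a22 : A 2 2 = A 1 1 := by nlinarith [sq_nonneg (A 2 2 - A 1 1), sq_nonneg (A 1 2 + A 2 1)]
  have a12 : A 1 2 = -A 2 1 := by nlinarith [sq_nonneg (A 2 2 - A 1 1), sq_nonneg (A 1 2 + A 2 1)]
  obtain ⟨r, θ, hr0, ha, hb⟩ := polar (A 1 1) (A 2 1)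
  have h := Real.cos_sq_add_sin_sq θ
  have r1 : r = 1 := by
    have : r ^ 2 = 1 := by
      rw [ha, hb] at c11
      nlinarith
    nlinarith
  rw [r1, one_mul] at ha hb
  have : A = Rx θ := by
    ext i j
    fin_cases i <;> fin_cases j <;> simp [Rx, a00, a01, a02, h1, h2, a22, a12, ha, hb]
  rw [this]; exact J_Rx θ

theorem J_of_SO {A : M3} (hA : SO A) : J A := by
  obtain ⟨r, θ, hr0, ha, hb⟩ := polar (A 0 0) (A 1 0)
  obtain ⟨s, φ, hs0, hc, hd⟩ := polar r (A 2 0)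
  have h := Real.cos_sq_add_sin_sq θ
  have h' := Real.cos_sq_add_sin_sq φ
  have hB : SO (Ry φ * (Rz θ * A)) := (SO_Ry φ).mul ((SO_Rz θ).mul hA)
  have e0 : (Rz θ * A) 0 0 = r := by
    simp [Rz, Matrix.mul_apply, Fin.sum_univ_three, ha, hb]
    linear_combination r * h
  have e1 : (Rz θ * A) 1 0 = 0 := by
    simp [Rz, Matrix.mul_apply, Fin.sum_univ_three, ha, hb]
    ring
  have e2 : (Rz θ * A) 2 0 = A 2 0 := by
    simp [Rz, Matrix.mul_apply, Fin.sum_univ_three]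
  have hJ : J (Ry φ * (Rz θ * A)) := by
    apply J_of_col hB
    · rw [Matrix.mul_apply, Fin.sum_univ_three, e0, e1, e2]
      simp [Ry]
    · rw [Matrix.mul_apply, Fin.sum_univ_three, e0, e1, e2, hd]
      simp only [Ry]
      simp
      rw [hc]; ring
    · rw [Matrix.mul_apply, Fin.sum_univ_three, e0, e1, e2, hd]
      simp only [Ry]
      simp
      have : Real.cos φ * r + Real.sin φ * (s * Real.sin φ) = s := by
        rw [hc]; linear_combination s * h'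
      rw [this]; exact hs0
  have : A = (Rz θ)ᵀ * ((Ry φ)ᵀ * (Ry φ * (Rz θ * A))) := by
    rw [← Matrix.mul_assoc (Ry φ)ᵀ, (SO_Ry φ).tr_mul, Matrix.one_mul, ← Matrix.mul_assoc,
      (SO_Rz θ).tr_mul, Matrix.one_mul]
  rw [this]
  exact (J_Rz θ).tr.mul ((J_Ry φ).tr.mul hJ)

/-- SO(3) is path connected. -/
theorem path {A B : M3} (hA : SO A) (hB : SO B) :
    ∃ γ : ℝ → M3, Continuous γ ∧ γ 0 = A ∧ γ 1 = B ∧ ∀ t, SO (γ t) := by
  obtain ⟨γ, hc, h0, h1, h⟩ := J_of_SO (hA.tr.mul hB)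
  refine ⟨fun t => A * γ t, continuous_const.mul hc, by simp [h0], ?_, fun t => hA.mul (h t)⟩
  simp only [h1]
  rw [← Matrix.mul_assoc, hA.mul_tr, Matrix.one_mul]

end Pool.Agent.H410Z.SO3Path
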