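import Mathlib

set_option autoImplicit false

open Topology Filter Set Real

namespace Pool.Agent.H410Z.SinCurve

noncomputable def G (t : ℝ) : ℝ × ℝ := (t, sin t⁻¹)

/-- the closed sine curve -/
def T : Set (ℝ × ℝ) :=
  {p | (0 < p.1 ∧ p.1 ≤ 1 ∧ p.2 = sin p.1⁻¹) ∨ (p.1 = 0 ∧ p.2 ∈ Icc (-1 : ℝ) 1)}

noncomputable def xSeq (y : ℝ) (k : ℕ) := 1 / (arcsin y + (k + 1) * (2 * π))

lemma xSeq_pos (y : ℝ) (k : ℕ) : 0 < xSeq y k := by
  rw [xSeq, one_div_pos]
  nlinarith [pi_pos, neg_pi_div_two_le_arcsin y]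

lemma sin_inv_xSeq {y : ℝ} (hy : y ∈ Icc (-1) 1) (k : ℕ) : sin (xSeq y k)⁻¹ = y := by
  simpa [xSeq, -Nat.cast_add, ← Nat.cast_succ] using sin_arcsin' hy

lemma xSeq_tendsto (y : ℝ) : Tendsto (xSeq y) atTop (𝓝 0) := by
  refine .comp (g := fun k : ℝ ↦ 1 / (arcsin y + (k + 1) * (2 * π))) ?_ tendsto_natCast_atTop_atTop
  simp only [div_eq_mul_inv, show 𝓝 0 = 𝓝 (1 * (0 : ℝ)) by simp]
  refine (tendsto_inv_atTop_zero.comp <| tendsto_atTop_add_const_left _ _ ?_).const_mul _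
  exact (tendsto_atTop_add_const_right _ _ tendsto_id).atTop_mul_const (by positivity)

lemma contAt_G {t : ℝ} (ht : 0 < t) : ContinuousAt G t :=
  continuousAt_id.prodMk (continuous_sin.continuousAt.comp (continuousAt_inv₀ ht.ne'))

lemma preconn_G {a b : ℝ} (ha : 0 ≤ a) : IsPreconnected (G '' Ioo a b) :=
  isPreconnected_Ioo.image _ fun _ ht => (contAt_G (ha.trans_lt ht.1)).continuousWithinAt

lemma mem_closure_G {a b : ℝ} (hab : a < b) {p : ℝ × ℝ} (hp : p ∈ T) (ha : 0 ≤ a) (h1 : a ≤ p.1)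
    (h2 : p.1 ≤ b) : p ∈ closure (G '' Ioo a b) := by
  rcases hp with ⟨h3, -, h4⟩ | ⟨h3, h4⟩
  · have : p = G p.1 := Prod.ext rfl h4
    rw [this]
    refine (contAt_G h3).continuousWithinAt.mem_closure_image ?_
    rw [closure_Ioo hab.ne]; exact ⟨h1, h2⟩
  · have ha0 : a = 0 := le_antisymm (h3 ▸ h1) ha
    subst ha0
    have ht : Tendsto (fun n => G (xSeq p.2 n)) atTop (𝓝 p) := by
      have : (fun n => G (xSeq p.2 n)) = fun n => (xSeq p.2 n, p.2) := by
        funext n; simp only [G, sin_inv_xSeq h4]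
      rw [this]
      have h5 : p = (0, p.2) := Prod.ext h3 rfl
      rw [h5]
      exact (xSeq_tendsto _).prodMk_nhds tendsto_const_nhds
    refine mem_closure_of_tendsto ht ?_
    filter_upwards [(xSeq_tendsto p.2).eventually (gt_mem_nhds hab)] with n hn
    exact ⟨_, ⟨xSeq_pos _ _, hn⟩, rfl⟩

lemma isClosed_T : IsClosed T := by
  rw [← isSeqClosed_iff_isClosed]
  intro f p hf hp
  have h1 : Tendsto (fun n => (f n).1) atTop (𝓝 p.1) := (continuous_fst.tendsto p).comp hp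
  have h2 : Tendsto (fun n => (f n).2) atTop (𝓝 p.2) := (continuous_snd.tendsto p).comp hp
  have h0 : 0 ≤ p.1 := ge_of_tendsto' h1 fun n => by
    rcases hf n with h | h
    · exact h.1.le
    · exact h.1.ge
  rcases h0.eq_or_lt with h | h
  · refine Or.inr ⟨h.symm, isClosed_Icc.mem_of_tendsto h2 (.of_forall fun n => ?_)⟩
    rcases hf n with h | h
    · rw [h.2.2]; exact sin_mem_Icc _
    · exact h.2
  · refine Or.inl ⟨h, le_of_tendsto' h1 fun n => ?_, ?_⟩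
    · rcases hf n with h | h
      · exact h.2.1
      · rw [h.1]; exact zero_le_one
    · have h3 : Tendsto (fun n => sin ((f n).1)⁻¹) atTop (𝓝 (sin p.1⁻¹)) :=
        (continuous_sin.continuousAt.comp (continuousAt_inv₀ h.ne')).tendsto.comp h1
      refine tendsto_nhds_unique h2 (h3.congr' ?_)
      filter_upwards [h1.eventually (lt_mem_nhds h)] with n hn
      rcases hf n with h | h
      · exact h.2.2.symm
      · exact absurd h.1 hn.ne'

lemma isCompact_T : IsCompact T := by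
  refine (isCompact_Icc (a := ((0 : ℝ), (-1 : ℝ))) (b := ((1 : ℝ), (1 : ℝ)))).of_isClosed_subset
    isClosed_T ?_
  rintro p (⟨h1, h2, h3⟩ | ⟨h1, h2⟩)
  · exact ⟨⟨h1.le, by rw [h3]; exact neg_one_le_sin _⟩, ⟨h2, by rw [h3]; exact sin_le_one _⟩⟩
  · exact ⟨⟨h1.ge, h2.1⟩, ⟨by rw [h1]; exact zero_le_one, h2.2⟩⟩

lemma fst_mem {p : ℝ × ℝ} (hp : p ∈ T) : 0 ≤ p.1 ∧ p.1 ≤ 1 := by
  rcases hp with h | h
  · exact ⟨h.1.le, h.2.1⟩
  · rw [h.1]; exact ⟨le_rfl, zero_le_one⟩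

lemma eq_G {p : ℝ × ℝ} (hp : p ∈ T) (h : 0 < p.1) : p = G p.1 := by
  rcases hp with h' | h'
  · exact Prod.ext rfl h'.2.2
  · exact absurd h'.1 h.ne'

lemma zero_mem : ((0, 0) : ℝ × ℝ) ∈ T := Or.inr ⟨rfl, by norm_num⟩
lemma one_mem : G 1 ∈ T := Or.inl ⟨zero_lt_one, le_rfl, rfl⟩

lemma isConnected_T : IsConnected T := by
  refine ⟨⟨_, zero_mem⟩, (preconn_G (a := 0) (b := 1) le_rfl).subset_closure ?_ ?_⟩
  · rintro _ ⟨t, ht, rfl⟩
    exact Or.inl ⟨ht.1, ht.2.le, rfl⟩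
  · intro p hp
    exact mem_closure_G zero_lt_one hp le_rfl (fst_mem hp).1 (fst_mem hp).2

/-- the set of local separating points, as in the frozen statement -/
def L {X : Type*} [TopologicalSpace X] (C : Set X) : Set X :=
  {p : X | p ∈ C ∧ ∃ V : Set X, IsOpen V ∧ p ∈ V ∧
    ¬ IsPreconnected (connectedComponentIn (V ∩ C) p \ {p})}

lemma cut_mem_L {X : Type*} [TopologicalSpace X] {C : Set X} (hC : IsPreconnected C)
    {φ : X → ℝ} (hφ : Continuous φ) {p u v : X} (hp : p ∈ C) (hu : u ∈ C) (hv : v ∈ C)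
    (h1 : φ u < φ p) (h2 : φ p < φ v) (hinj : ∀ q ∈ C, φ q = φ p → q = p) : p ∈ L C := by
  refine ⟨hp, univ, isOpen_univ, mem_univ _, ?_⟩
  rw [univ_inter, hC.connectedComponentIn hp]
  intro h
  have h3 := (h.image φ hφ.continuousOn).Icc_subset
    ⟨u, ⟨hu, fun h' => h1.ne (by rw [mem_singleton_iff.1 h'])⟩, rfl⟩
    ⟨v, ⟨hv, fun h' => h2.ne' (by rw [mem_singleton_iff.1 h'])⟩, rfl⟩ ⟨h1.le, h2.le⟩
  obtain ⟨q, ⟨hq1, hq2⟩, hq3⟩ := h3
  exact hq2 (hinj q hq1 hq3)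

lemma preconn_L (C : Set T) (h1 : IsCompact C) (h2 : IsConnected C) : IsPreconnected (L C) := by
  have hf : Continuous (fun p : T => p.1.1) := by fun_prop
  have hg : Continuous (fun p : T => p.1.2) := by fun_prop
  have hLC : L C ⊆ C := fun p hp => hp.1
  obtain ⟨u, hu, hu'⟩ := h1.exists_isMinOn h2.nonempty hf.continuousOn
  obtain ⟨v, hv, hv'⟩ := h1.exists_isMaxOn h2.nonempty hf.continuousOn
  rw [isMinOn_iff] at hu'
  rw [isMaxOn_iff] at hv'
  have hind : IsInducing ((↑) : T → ℝ × ℝ) := IsInducing.subtypeVal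
  rcases (hu' v hv).eq_or_lt with huv | huv
  · have hall : ∀ p ∈ C, p.1.1 = u.1.1 := fun p hp =>
      le_antisymm (huv ▸ hv' p hp) (hu' p hp)
    rcases (fst_mem u.2).1.eq_or_lt with h0 | h0
    · obtain ⟨c, hc, hc'⟩ := h1.exists_isMinOn h2.nonempty hg.continuousOn
      obtain ⟨d, hd, hd'⟩ := h1.exists_isMaxOn h2.nonempty hg.continuousOn
      rw [isMinOn_iff] at hc'
      rw [isMaxOn_iff] at hd'
      have hinj : ∀ p ∈ C, ∀ q ∈ C, q.1.2 = p.1.2 → q = p := fun p hp q hq h =>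
        Subtype.ext (Prod.ext ((hall q hq).trans (hall p hp).symm) h)
      rcases (hc' d hd).eq_or_lt with hcd | hcd
      · refine Subsingleton.isPreconnected (Subsingleton.anti ?_ hLC)
        intro p hp q hq
        exact hinj q hq p hp ((le_antisymm (hcd ▸ hd' p hp) (hc' p hp)).trans
          (le_antisymm (hcd ▸ hd' q hq) (hc' q hq)).symm)
      · have him : ((↑) : T → ℝ × ℝ) '' {p | p ∈ C ∧ c.1.2 < p.1.2 ∧ p.1.2 < d.1.2} =
            (fun y : ℝ => ((0 : ℝ), y)) '' Ioo c.1.2 d.1.2 := by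
          ext z
          constructor
          · rintro ⟨p, ⟨hp1, hp2⟩, rfl⟩
            exact ⟨p.1.2, hp2, Prod.ext (h0.trans (hall p hp1).symm) rfl⟩
          · rintro ⟨y, hy, rfl⟩
            obtain ⟨p, hp1, hp2⟩ := (h2.isPreconnected.image _ hg.continuousOn).Icc_subset
              ⟨c, hc, rfl⟩ ⟨d, hd, rfl⟩ ⟨hy.1.le, hy.2.le⟩
            have hp2' : p.1.2 = y := hp2
            exact ⟨p, ⟨hp1, by rw [hp2']; exact hy⟩,
              Prod.ext ((hall p hp1).trans h0.symm) hp2'⟩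
        refine IsPreconnected.subset_closure
          (s := {p | p ∈ C ∧ c.1.2 < p.1.2 ∧ p.1.2 < d.1.2}) ?_ ?_ ?_
        · rw [← hind.isPreconnected_image, him]
          exact isPreconnected_Ioo.image _ (by fun_prop)
        · intro p hp
          exact cut_mem_L h2.isPreconnected hg hp.1 hc hd hp.2.1 hp.2.2 (hinj p hp.1)
        · intro p hp
          rw [hind.closure_eq_preimage_closure_image, him, mem_preimage]
          have : p.1 = (fun y : ℝ => ((0 : ℝ), y)) p.1.2 :=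
            Prod.ext ((hall p hp.1).trans h0.symm) rfl
          rw [this]
          refine ContinuousWithinAt.mem_closure_image (by fun_prop) ?_
          rw [closure_Ioo hcd.ne]
          exact ⟨hc' p hp.1, hd' p hp.1⟩
    · refine Subsingleton.isPreconnected (Subsingleton.anti ?_ hLC)
      intro p hp q hq
      apply Subtype.ext
      rw [eq_G p.2 (by rw [hall p hp]; exact h0), eq_G q.2 (by rw [hall q hq]; exact h0),
        hall p hp, hall q hq]
  · have hu0 := (fst_mem u.2).1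
    have him : ((↑) : T → ℝ × ℝ) '' {p | p ∈ C ∧ u.1.1 < p.1.1 ∧ p.1.1 < v.1.1} =
        G '' Ioo u.1.1 v.1.1 := by
      ext z
      constructor
      · rintro ⟨p, ⟨-, hp2⟩, rfl⟩
        exact ⟨p.1.1, hp2, (eq_G p.2 (hu0.trans_lt hp2.1)).symm⟩
      · rintro ⟨y, hy, rfl⟩
        obtain ⟨p, hp1, hp2⟩ := (h2.isPreconnected.image _ hf.continuousOn).Icc_subset
          ⟨u, hu, rfl⟩ ⟨v, hv, rfl⟩ ⟨hy.1.le, hy.2.le⟩
        have hp2' : p.1.1 = y := hp2
        refine ⟨p, ⟨hp1, by rw [hp2']; exact hy⟩, ?_⟩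
        rw [← hp2']
        exact eq_G p.2 (by rw [hp2']; exact hu0.trans_lt hy.1)
    refine IsPreconnected.subset_closure
      (s := {p | p ∈ C ∧ u.1.1 < p.1.1 ∧ p.1.1 < v.1.1}) ?_ ?_ ?_
    · rw [← hind.isPreconnected_image, him]
      exact preconn_G hu0
    · intro p hp
      refine cut_mem_L h2.isPreconnected hf hp.1 hu hv hp.2.1 hp.2.2 fun q _ hq => ?_
      have hp0 : 0 < p.1.1 := hu0.trans_lt hp.2.1
      apply Subtype.ext
      rw [eq_G p.2 hp0, eq_G q.2 (by rw [hq]; exact hp0), hq]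
    · intro p hp
      rw [hind.closure_eq_preimage_closure_image, him, mem_preimage]
      exact mem_closure_G huv p.2 hu0 (hu' p hp.1) (hv' p hp.1)

lemma no_path (p : unitInterval → ℝ × ℝ) (hp : Continuous p) (hT : ∀ t, p t ∈ T)
    (h0 : (p 0).1 = 0) (h1 : (p 1).1 = 1) : False := by
  have xc : Continuous fun t ↦ (p t).1 := continuous_fst.comp hp
  let t₀ : unitInterval := sSup {t | (p t).1 = 0}
  have hcl : IsClosed {t : unitInterval | (p t).1 = 0} := isClosed_eq xc continuous_const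
  have ht0 : (p t₀).1 = 0 := IsClosed.sSup_mem (s := {t : unitInterval | (p t).1 = 0}) ⟨0, h0⟩ hcl
  have hlt : t₀ < 1 := lt_of_le_of_ne (unitInterval.le_one t₀) fun h => by
    rw [h, h1] at ht0; exact one_ne_zero ht0
  have hev : ∀ᶠ t in 𝓝 t₀, dist (p t) (p t₀) < 1 :=
    Metric.tendsto_nhds.mp (hp.continuousAt (x := t₀)) _ one_pos
  obtain ⟨t₂, ht₂, hsub⟩ := exists_Ico_subset_of_mem_nhds hev ⟨1, hlt⟩
  obtain ⟨t₁, h₁, h₁'⟩ := exists_between ht₂
  have ha : 0 < (p t₁).1 := lt_of_le_of_ne (fst_mem (hT t₁)).1 fun h =>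
    (show t₁ ≤ t₀ from le_sSup h.symm).not_gt h₁
  have hI : Icc 0 (p t₁).1 ⊆ (fun t ↦ (p t).1) '' Icc t₀ t₁ :=
    (isPreconnected_Icc.image _ xc.continuousOn).Icc_subset
      ⟨t₀, ⟨le_rfl, h₁.le⟩, ht0⟩ ⟨t₁, ⟨h₁.le, le_rfl⟩, rfl⟩
  have hclose : ∀ y ∈ Icc (-1 : ℝ) 1, |y - (p t₀).2| < 1 := by
    intro y hy
    obtain ⟨n, hn⟩ := ((xSeq_tendsto y).eventually (gt_mem_nhds ha)).exists
    obtain ⟨t, ht, ht'⟩ := hI ⟨(xSeq_pos y n).le, hn.le⟩
    have ht'' : (p t).1 = xSeq y n := ht'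
    have h3 : (p t).2 = y := by
      rw [eq_G (hT t) (by rw [ht'']; exact xSeq_pos y n), ht'']
      exact sin_inv_xSeq hy n
    have h4 : dist (p t) (p t₀) < 1 := hsub ⟨ht.1, ht.2.trans_lt h₁'⟩
    rw [Prod.dist_eq, max_lt_iff, h3] at h4
    exact h4.2
  have e1 := abs_lt.1 (hclose 1 (by norm_num))
  have e2 := abs_lt.1 (hclose (-1) (by norm_num))
  linarith [e1.1, e1.2, e2.1, e2.2]

end Pool.Agent.H410Z.SinCurve
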